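import Pool.Agent.MP_646035_al.Defs

/-!
Hyperbolic 3-space, fundamental groups of closed hyperbolic 3-manifolds, and their growth rates.
-/

namespace Pool.Agent.MP_e37573_al

open Pool.Agent.MP_646035_al

/-- Hyperbolic 3-space in the upper half-space model. -/
structure H3 where
  x : ℝ
  y : ℝ
  t : ℝ
  pos : 0 < t

/-- The hyperbolic distance (curvature `-1`) in the upper half-space model. -/
noncomputable def hdist (p q : H3) : ℝ :=
  Real.arcosh (1 + ((p.x - q.x) ^ 2 + (p.y - q.y) ^ 2 + (p.t - q.t) ^ 2) / (2 * p.t * q.t))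

/-- `Γ` acts on hyperbolic 3-space by isometries, freely, properly discontinuously and cocompactly.
These groups are the fundamental groups (deck groups of the universal coverings) of the closed
hyperbolic 3-manifolds `H3 / Γ`, orientable or not. -/
structure IsClosedHypGroup (Γ : Subgroup (Equiv.Perm H3)) : Prop where
  isom : ∀ γ ∈ Γ, ∀ p q : H3, hdist (γ p) (γ q) = hdist p q
  free : ∀ γ ∈ Γ, ∀ p : H3, γ p = p → γ = 1
  proper : ∀ (p : H3) (R : ℝ), {γ : Equiv.Perm H3 | γ ∈ Γ ∧ hdist p (γ p) ≤ R}.Finite
  cocompact : ∃ (p : H3) (R : ℝ), ∀ q : H3, ∃ γ ∈ Γ, hdist q (γ p) ≤ R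

/-- The set of the growth rates of the fundamental groups of all closed hyperbolic 3-manifolds with
respect to all their finite generating sets. -/
def rates : Set ℝ :=
  {e | ∃ Γ : Subgroup (Equiv.Perm H3), IsClosedHypGroup Γ ∧ e ∈ growthSet Γ}

end Pool.Agent.MP_e37573_al
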